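import Pool.Agent.H110R3.UF.Stmts

/-! Unit constraints are unitary (TaskT3). -/

open CategoryTheory MonoidalCategory CategoryTheory.Limits

universe v u

namespace Pool.Agent.H237.UF

open Pool.Agent.H110R3.UF

theorem t : TaskT3.{v, u} := by
  intro C _ _ _ _ _ _ K X hX
  constructor
  · ext i' ⟨⟨⟨⟩, i⟩, c, k⟩
    change Fin (K.N K.o (X.s i) c) at k
    have hA : X.inc i' ≫ (λ_ X.X).inv ≫ ((K.oprj ⊗ₘ X.prj i) ≫ K.G' K.o (X.s i) c k)
        = (λ_ (K.S (X.s i'))).inv ≫ (K.oprj ⊗ₘ (X.inc i' ≫ X.prj i)) ≫ K.G' K.o (X.s i) c k := by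
      rw [← Category.assoc, MonoidalCategory.leftUnitor_inv_naturality, Category.assoc]
      congr 1
      rw [← Category.assoc]
      congr 1
      rw [← MonoidalCategory.id_tensorHom, MonoidalCategory.tensorHom_comp_tensorHom,
        Category.id_comp]
    have hB : (K.G K.o (X.s i) c k ≫ (K.oinc ⊗ₘ X.inc i)) ≫ (λ_ X.X).hom ≫ X.prj i'
        = K.G K.o (X.s i) c k ≫ (K.oinc ▷ K.S (X.s i)) ≫ (λ_ (K.S (X.s i))).hom ≫
          (X.inc i ≫ X.prj i') := by
      rw [MonoidalCategory.tensorHom_def, Category.assoc, Category.assoc]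
      congr 2
      rw [← Category.assoc, MonoidalCategory.leftUnitor_naturality, Category.assoc]
    show K.coef _ _ (X.inc i' ≫ (λ_ X.X).inv ≫ ((K.oprj ⊗ₘ X.prj i) ≫ K.G' K.o (X.s i) c k))
      = star (K.coef _ _ ((K.G K.o (X.s i) c k ≫ (K.oinc ⊗ₘ X.inc i)) ≫ (λ_ X.X).hom ≫ X.prj i'))
    rw [hA, hB, hX.ortho, hX.ortho]
    by_cases h : i = i'
    · subst h
      rw [if_pos rfl, K.dl_self, Category.comp_id, K.lunit, MonoidalCategory.tensorHom_id]
    · rw [if_neg h, if_neg (Ne.symm h), MonoidalPreadditive.tensor_zero]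
      simp only [comp_zero, zero_comp]
      rw [map_zero, map_zero, star_zero]
  · ext i' ⟨⟨i, ⟨⟩⟩, c, k⟩
    change Fin (K.N (X.s i) K.o c) at k
    have hA : X.inc i' ≫ (ρ_ X.X).inv ≫ ((X.prj i ⊗ₘ K.oprj) ≫ K.G' (X.s i) K.o c k)
        = (ρ_ (K.S (X.s i'))).inv ≫ ((X.inc i' ≫ X.prj i) ⊗ₘ K.oprj) ≫ K.G' (X.s i) K.o c k := by
      rw [← Category.assoc, MonoidalCategory.rightUnitor_inv_naturality, Category.assoc]
      congr 1
      rw [← Category.assoc]
      congr 1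
      rw [← MonoidalCategory.tensorHom_id, MonoidalCategory.tensorHom_comp_tensorHom,
        Category.id_comp]
    have hB : (K.G (X.s i) K.o c k ≫ (X.inc i ⊗ₘ K.oinc)) ≫ (ρ_ X.X).hom ≫ X.prj i'
        = K.G (X.s i) K.o c k ≫ (K.S (X.s i) ◁ K.oinc) ≫ (ρ_ (K.S (X.s i))).hom ≫
          (X.inc i ≫ X.prj i') := by
      rw [MonoidalCategory.tensorHom_def', Category.assoc, Category.assoc]
      congr 2
      rw [← Category.assoc, MonoidalCategory.rightUnitor_naturality, Category.assoc]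
    show K.coef _ _ (X.inc i' ≫ (ρ_ X.X).inv ≫ ((X.prj i ⊗ₘ K.oprj) ≫ K.G' (X.s i) K.o c k))
      = star (K.coef _ _ ((K.G (X.s i) K.o c k ≫ (X.inc i ⊗ₘ K.oinc)) ≫ (ρ_ X.X).hom ≫ X.prj i'))
    rw [hA, hB, hX.ortho, hX.ortho]
    by_cases h : i = i'
    · subst h
      rw [if_pos rfl, K.dl_self, Category.comp_id, K.runit, MonoidalCategory.id_tensorHom]
    · rw [if_neg h, if_neg (Ne.symm h), MonoidalPreadditive.zero_tensor]
      simp only [comp_zero, zero_comp]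
      rw [map_zero, map_zero, star_zero]

end Pool.Agent.H237.UF
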